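import Mathlib

set_option autoImplicit false

namespace Pool.Agent.Results.MP_49ab16_co.Geodesics

/-- The hypercube graph `Q_n`: the vertices are the 0-1 vectors of length `n`, and two vertices are
adjacent when they differ in exactly one coordinate. -/
def Q (n : ℕ) : SimpleGraph (Fin n → Bool) where
  Adj v w := ∃ i, v i ≠ w i ∧ ∀ j, j ≠ i → v j = w j
  symm := ⟨fun _ _ ⟨i, h1, h2⟩ => ⟨i, h1.symm, fun j hj => (h2 j hj).symm⟩⟩
  loopless := ⟨fun _ ⟨_, h1, _⟩ => h1 rfl⟩

/-- The antipode of a vertex: its coordinatewise complement. -/
def antipode {n : ℕ} (v : Fin n → Bool) : Fin n → Bool := fun i => !(v i)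

/-- The number of indices at which a sequence changes its value. -/
def changes {α : Type*} [DecidableEq α] : List α → ℕ
  | [] => 0
  | [_] => 0
  | a :: b :: l => (if a = b then 0 else 1) + changes (b :: l)

/-! ### Facts on the number of changes -/

section changes
variable {α : Type*} [DecidableEq α]

lemma changes_cons_le (a : α) (l : List α) : changes l ≤ changes (a :: l) := by
  cases l with
  | nil => simp [changes]
  | cons b l => simp [changes]

lemma changes_cons_le_add (a b : α) (l : List α) :
    changes (a :: l) ≤ changes (a :: b :: l) := by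
  cases l with
  | nil => simp [changes]
  | cons c l =>
    simp only [changes]
    split_ifs with h1 h2 h3 h3 <;> simp_all <;> omega

lemma changes_sublist : ∀ (l l' : List α), l.Sublist l' →
    changes l ≤ changes l' ∧ ∀ a, changes (a :: l) ≤ changes (a :: l') := by
  intro l l' h
  induction h with
  | slnil => exact ⟨le_rfl, fun _ => le_rfl⟩
  | @cons l₁ l₂ b h ih =>
    refine ⟨ih.1.trans (changes_cons_le b l₂), fun a => ?_⟩
    exact (ih.2 a).trans (changes_cons_le_add a b l₂)
  | @cons_cons l₁ l₂ b h ih =>
    refine ⟨ih.2 b, fun a => ?_⟩
    simp only [changes]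
    have := ih.2 b
    omega

lemma changes_map_le {β : Type*} [DecidableEq β] (f : α → β) (l : List α) :
    changes (l.map f) ≤ changes l := by
  induction l with
  | nil => simp [changes]
  | cons a l ih =>
    cases l with
    | nil => simp [changes]
    | cons b l =>
      simp only [List.map_cons, changes] at ih ⊢
      split_ifs with h1 h2 h2
      · omega
      · omega
      · exact absurd (congrArg f h2) h1
      · omega

lemma changes_append_unique (x : α) (B : List α) (hB : x ∉ B) :
    ∀ (A : List α), x ∉ A → A ++ B ≠ [] → changes (A ++ B) + 1 ≤ changes (A ++ x :: B) := by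
  intro A
  induction A with
  | nil =>
    intro _ hne
    cases B with
    | nil => simp at hne
    | cons b B =>
      have : x ≠ b := fun e => hB (by simp [e])
      simp only [List.nil_append, changes, this, if_false]
      omega
  | cons a A ih =>
    intro hA _
    have hxa : a ≠ x := fun e => hA (by simp [e])
    cases A with
    | nil =>
      cases B with
      | nil => simp [changes, hxa]
      | cons b B =>
        have : x ≠ b := fun e => hB (by simp [e])
        simp only [List.cons_append, List.nil_append, changes, hxa, this, if_false]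
        split_ifs <;> omega
    | cons a' A =>
      have h1 := ih (fun e => hA (by simp at e ⊢; tauto)) (by simp)
      simp only [List.cons_append, changes] at h1 ⊢
      omega

end changes

/-! ### The colouring -/

/-- The state: the coordinates number 4, 5, 6 of a vertex. -/
abbrev St := Bool × Bool × Bool

/-- number of a state -/
def idx (s : St) : ℕ := (if s.1 then 1 else 0) + (if s.2.1 then 2 else 0) + (if s.2.2 then 4 else 0)

/-- The table of colours: row `i` is the list of the colours of the edges of direction `i` at the
eight states. -/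
def table : List (List ℕ) :=
  [[0, 1, 2, 1, 0, 2, 0, 0],
   [1, 1, 1, 2, 2, 0, 2, 0],
   [0, 2, 0, 1, 2, 1, 2, 1],
   [2, 0, 0, 0, 1, 2, 1, 2],
   [1, 1, 0, 0, 1, 1, 0, 0],
   [2, 2, 2, 2, 2, 2, 2, 2],
   [0, 0, 1, 1, 0, 0, 1, 1]]

/-- The basic colour of an edge of direction `i < 7` at the state `s`. -/
def base (s : St) (i : ℕ) : ℕ := (table.getD i []).getD (idx s) 0

/-- The effect of a step in direction `i` on the state. -/
def step (s : St) (i : ℕ) : St :=
  if i = 4 then (!s.1, s.2.1, s.2.2) else
  if i = 5 then (s.1, !s.2.1, s.2.2) else
  if i = 6 then (s.1, s.2.1, !s.2.2) else s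

/-- The colour of an edge: the directions from `7` to `r + 3` have the private colours
`3, …, r - 1`, the later directions the colour `0`. -/
def col (r : ℕ) (s : St) (i : ℕ) : ℕ :=
  if i < 7 then base s i else if i < r + 4 then i - 4 else 0

/-- The colours met when the directions of `l` are used from the state `s`. -/
def cs (r : ℕ) : St → List ℕ → List ℕ
  | _, [] => []
  | s, i :: l => col r s i :: cs r (step s i) l

/-- The state after the directions of `l`. -/
def fin : St → List ℕ → St
  | s, [] => s
  | s, i :: l => fin (step s i) l

lemma step_ge {s : St} {i : ℕ} (h : 7 ≤ i) : step s i = s := by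
  unfold step
  rw [if_neg (by omega), if_neg (by omega), if_neg (by omega)]

lemma cs_append (r : ℕ) (A B : List ℕ) : ∀ s, cs r s (A ++ B) = cs r s A ++ cs r (fin s A) B := by
  induction A with
  | nil => intro s; rfl
  | cons a A ih =>
    intro s
    simp only [List.cons_append, cs, fin, ih]

lemma base_lt : ∀ s : St, ∀ i < 7, base s i < 3 := by decide

/-- Searching for sequences with at most `b` further changes. -/
def chk : ℕ → St → List ℕ → ℕ → ℕ → Bool
  | 0, _, _, _, _ => false
  | _ + 1, _, [], _, _ => false
  | k + 1, s, a :: l, last, b =>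
    (a :: l).all (fun i =>
      if base s i = last then chk k (step s i) ((a :: l).erase i) (base s i) b
      else match b with
        | 0 => true
        | b' + 1 => chk k (step s i) ((a :: l).erase i) (base s i) b')

lemma chk_sound : ∀ (k : ℕ) (s : St) (rem : List ℕ) (last b : ℕ), chk k s rem last b = true →
    (∀ i ∈ rem, i < 7) → ∀ l : List ℕ, l.Perm rem → b < changes (last :: cs 3 s l) := by
  intro k
  induction k with
  | zero => intro s rem last b h; simp [chk] at h
  | succ k ih =>
    intro s rem last b h hrem l hl
    cases rem with
    | nil => simp [chk] at h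
    | cons a rem =>
      unfold chk at h
      rw [List.all_eq_true] at h
      cases l with
      | nil => exact absurd hl.length_eq (by simp)
      | cons i l =>
        have hi : i ∈ a :: rem := hl.subset (by simp)
        have hi7 := hrem i hi
        have h1 := h i hi
        have hcol : col 3 s i = base s i := by simp [col, hi7]
        have hperm : l.Perm ((a :: rem).erase i) := by
          have h2 := hl.erase i
          rwa [List.erase_cons_head] at h2
        have hrem' : ∀ j ∈ (a :: rem).erase i, j < 7 :=
          fun j hj => hrem j (List.mem_of_mem_erase hj)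
        simp only [cs, changes, hcol]
        by_cases hb : base s i = last
        · rw [if_pos hb] at h1
          have h3 := ih _ _ _ _ h1 hrem' l hperm
          rw [if_pos hb.symm]
          omega
        · rw [if_neg hb] at h1
          rw [if_neg (fun e => hb e.symm)]
          cases b with
          | zero => omega
          | succ b' =>
            have h3 := ih _ _ _ _ h1 hrem' l hperm
            omega

lemma chk_all : ∀ s : St, ∀ i ∈ List.range 7,
    chk 7 (step s i) ((List.range 7).erase i) (base s i) 2 = true := by
  decide +kernel

lemma core_base (s : St) (l : List ℕ) (hl : l.Perm (List.range 7)) : 3 ≤ changes (cs 3 s l) := by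
  cases l with
  | nil => exact absurd hl.length_eq (by simp)
  | cons i l =>
    have hi : i ∈ List.range 7 := hl.subset (by simp)
    have hi7 : i < 7 := List.mem_range.mp hi
    have h1 := chk_all s i hi
    have hperm : l.Perm ((List.range 7).erase i) := by
      have h2 := hl.erase i
      rwa [List.erase_cons_head] at h2
    have h2 := chk_sound 7 (step s i) ((List.range 7).erase i) (base s i) 2 h1
      (fun j hj => List.mem_range.mp (List.mem_of_mem_erase hj)) l hperm
    have hcol : col 3 s i = base s i := by simp [col, hi7]
    simp only [cs, hcol]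
    omega

/-! ### All numbers of colours -/

lemma fin_ge {s : St} : ∀ {i : ℕ}, 7 ≤ i → step s i = s := fun h => step_ge h

lemma cs_congr (r r' : ℕ) : ∀ (l : List ℕ) (s : St), (∀ i ∈ l, col r = col r' ∨
    (i < r + 4 ∧ i < r' + 4)) → cs r s l = cs r' s l := by
  intro l
  induction l with
  | nil => intro s _; rfl
  | cons i l ih =>
    intro s h
    simp only [cs]
    rw [ih (step s i) (fun j hj => h j (List.mem_cons_of_mem _ hj))]
    congr 1
    rcases h i (by simp) with h1 | ⟨h1, h2⟩
    · rw [h1]
    · simp [col, h1, h2]

lemma mem_cs {r : ℕ} : ∀ (l : List ℕ) (s : St) (m : ℕ), (∀ i ∈ l, i < 7 + m) →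
    ∀ x ∈ cs r s l, x < 3 + m := by
  intro l
  induction l with
  | nil => intro s m _ x hx; simp [cs] at hx
  | cons i l ih =>
    intro s m h x hx
    simp only [cs, List.mem_cons] at hx
    rcases hx with rfl | hx
    · have hi := h i (by simp)
      unfold col
      split_ifs with h1 h2
      · have := base_lt s i h1
        omega
      · omega
      · omega
    · exact ih (step s i) m (fun j hj => h j (List.mem_cons_of_mem _ hj)) x hx

lemma core_r : ∀ (k : ℕ) (s : St) (l : List ℕ), l.Perm (List.range (7 + k)) →
    3 + k ≤ changes (cs (3 + k) s l) := by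
  intro k
  induction k with
  | zero => intro s l hl; exact core_base s l hl
  | succ k ih =>
    intro s l hl
    have hmem : 7 + k ∈ l := hl.symm.subset (by rw [List.mem_range]; omega)
    obtain ⟨A, B, rfl⟩ := List.append_of_mem hmem
    have hl' : (A ++ B).Perm (List.range (7 + k)) := by
      have h1 : ((7 + k) :: (A ++ B)).Perm (List.range (7 + (k + 1))) :=
        List.perm_middle.symm.trans hl
      have h2 : (List.range (7 + (k + 1))).Perm ((7 + k) :: List.range (7 + k)) := by
        have : 7 + (k + 1) = (7 + k) + 1 := by ring
        rw [this, List.range_succ]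
        exact List.perm_append_comm (l₂ := [7 + k])
      exact (h1.trans h2).cons_inv
    have hlt : ∀ i ∈ A ++ B, i < 7 + k := fun i hi => List.mem_range.mp (hl'.subset hi)
    have e1 : cs (3 + (k + 1)) s (A ++ B) = cs (3 + k) s (A ++ B) := by
      apply cs_congr
      intro i hi
      right
      have := hlt i hi
      omega
    have e2 : cs (3 + (k + 1)) s (A ++ (7 + k) :: B) =
        cs (3 + (k + 1)) s A ++ (3 + k) :: cs (3 + (k + 1)) (fin s A) B := by
      rw [cs_append]
      simp only [cs]
      rw [step_ge (by omega)]
      congr 2
      unfold col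
      rw [if_neg (by omega), if_pos (by omega)]
      omega
    have e3 : cs (3 + (k + 1)) s A ++ cs (3 + (k + 1)) (fin s A) B = cs (3 + k) s (A ++ B) := by
      rw [← e1, cs_append]
    have hA : 3 + k ∉ cs (3 + (k + 1)) s A := by
      intro hx
      have := mem_cs A s k (fun i hi => hlt i (List.mem_append_left _ hi)) _ hx
      omega
    have hB : 3 + k ∉ cs (3 + (k + 1)) (fin s A) B := by
      intro hx
      have := mem_cs B (fin s A) k (fun i hi => hlt i (List.mem_append_right _ hi)) _ hx
      omega
    have h3 := ih s (A ++ B) hl'
    have hne : cs (3 + (k + 1)) s A ++ cs (3 + (k + 1)) (fin s A) B ≠ [] := by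
      rw [e3]
      intro e
      rw [e] at h3
      simp [changes] at h3
    have h4 := changes_append_unique (3 + k) (cs (3 + (k + 1)) (fin s A) B) hB
      (cs (3 + (k + 1)) s A) hA hne
    rw [e3] at h4
    rw [e2]
    omega

lemma cs_filter_sublist (r : ℕ) (hr : 3 ≤ r) : ∀ (l : List ℕ) (s : St),
    (cs r s (l.filter (fun i => decide (i < r + 4)))).Sublist (cs r s l) := by
  intro l
  induction l with
  | nil => intro s; simp [cs]
  | cons i l ih =>
    intro s
    by_cases h : i < r + 4
    · rw [List.filter_cons_of_pos (by simpa using h)]
      simp only [cs]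
      exact (ih (step s i)).cons_cons _
    · rw [List.filter_cons_of_neg (by simpa using h)]
      simp only [cs]
      rw [step_ge (by omega)]
      exact (ih s).cons _

lemma core_n (r n : ℕ) (hr : 3 ≤ r) (hn : r + 4 ≤ n) (s : St) (l : List ℕ)
    (hl : l.Perm (List.range n)) : r ≤ changes (cs r s l) := by
  obtain ⟨k, rfl⟩ : ∃ k, r = 3 + k := ⟨r - 3, by omega⟩
  have h1 := (changes_sublist _ _ (cs_filter_sublist (3 + k) hr l s)).1
  have h2 : (l.filter (fun i => decide (i < 3 + k + 4))).Perm (List.range (7 + k)) := by
    have h3 := hl.filter (fun i => decide (i < 3 + k + 4))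
    refine h3.trans ?_
    rw [List.perm_ext_iff_of_nodup (List.nodup_range.filter _) List.nodup_range]
    intro i
    simp only [List.mem_filter, List.mem_range, decide_eq_true_eq]
    omega
  exact (core_r k s _ h2).trans h1

/-! ### Walks in the hypercube -/

/-- coordinate number `k` of a vertex, `false` when there is none -/
def bit {n : ℕ} (v : Fin n → Bool) (k : ℕ) : Bool := if h : k < n then v ⟨k, h⟩ else false

/-- the state of a vertex -/
def st {n : ℕ} (v : Fin n → Bool) : St := (bit v 4, bit v 5, bit v 6)

open Classical in
/-- The colour (a natural number) of the edge whose lower endpoint is `u` and whose direction is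
marked by `d`. -/
noncomputable def colD {n : ℕ} (r : ℕ) (u d : Fin n → Bool) : ℕ :=
  if h : ∃ i, d i = true then col r (st u) (h.choose : ℕ) else 0

/-- The colour of an unordered pair of vertices, as a natural number. -/
noncomputable def colN {n : ℕ} (r : ℕ) : Sym2 (Fin n → Bool) → ℕ :=
  Sym2.lift ⟨fun v w => colD r (fun j => v j && w j) (fun j => xor (v j) (w j)), by
    intro v w
    have h1 : (fun j => v j && w j) = fun j => w j && v j := by
      funext j; exact Bool.and_comm _ _
    have h2 : (fun j => xor (v j) (w j)) = fun j => xor (w j) (v j) := by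
      funext j; exact Bool.xor_comm _ _
    simp only [h1, h2]⟩

lemma base_low4 : ∀ s : St, base (false, s.2.1, s.2.2) 4 = base s 4 := by decide
lemma base_low5 : ∀ s : St, base (s.1, false, s.2.2) 5 = base s 5 := by decide
lemma base_low6 : ∀ s : St, base (s.1, s.2.1, false) 6 = base s 6 := by decide

lemma colN_adj {n r : ℕ} {v w : Fin n → Bool} {i : Fin n} (h1 : v i ≠ w i)
    (h2 : ∀ j, j ≠ i → v j = w j) : colN r s(v, w) = col r (st v) (i : ℕ) := by
  have hd : ∀ j, (xor (v j) (w j) = true) ↔ j = i := by
    intro j
    constructor
    · intro h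
      by_contra hj
      rw [h2 j hj] at h
      simp at h
    · rintro rfl
      revert h1
      cases v j <;> cases w j <;> simp
  have hex : ∃ j, (fun j => xor (v j) (w j)) j = true := ⟨i, (hd i).mpr rfl⟩
  have hch : hex.choose = i := (hd _).mp hex.choose_spec
  unfold colN
  rw [Sym2.lift_mk]
  simp only
  unfold colD
  rw [dif_pos hex, hch]
  have hbit : ∀ k, bit (fun j => v j && w j) k = if k = (i : ℕ) then false else bit v k := by
    intro k
    unfold bit
    by_cases hk : k < n
    · simp only [hk, dite_true]
      by_cases hki : k = (i : ℕ)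
      · have : (⟨k, hk⟩ : Fin n) = i := Fin.ext hki
        rw [this, if_pos hki]
        revert h1
        cases v i <;> cases w i <;> simp
      · have : (⟨k, hk⟩ : Fin n) ≠ i := fun e => hki (congrArg Fin.val e)
        rw [← h2 _ this, if_neg hki, Bool.and_self]
    · simp [hk]
  have hst : st (fun j => v j && w j) = (if 4 = (i : ℕ) then false else bit v 4,
      if 5 = (i : ℕ) then false else bit v 5, if 6 = (i : ℕ) then false else bit v 6) := by
    unfold st
    rw [hbit, hbit, hbit]
  rw [hst]
  unfold col
  by_cases h7 : (i : ℕ) < 7
  · rw [if_pos h7, if_pos h7]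
    rcases Nat.lt_or_ge (i : ℕ) 4 with h | h
    · rw [if_neg (by omega), if_neg (by omega), if_neg (by omega)]
      rfl
    · have hc : (i : ℕ) = 4 ∨ (i : ℕ) = 5 ∨ (i : ℕ) = 6 := by omega
      rcases hc with h | h | h <;> rw [h]
      · exact base_low4 (st v)
      · exact base_low5 (st v)
      · exact base_low6 (st v)
  · rw [if_neg h7, if_neg h7]

/-- flipping a coordinate -/
def flip {n : ℕ} (v : Fin n → Bool) (i : Fin n) : Fin n → Bool := Function.update v i (!(v i))

lemma st_flip {n : ℕ} (v : Fin n → Bool) (i : Fin n) : st (flip v i) = step (st v) (i : ℕ) := by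
  have hbit : ∀ k, bit (flip v i) k = if k = (i : ℕ) then !(bit v k) else bit v k := by
    intro k
    unfold bit flip
    by_cases hk : k < n
    · simp only [hk, dite_true]
      by_cases hki : k = (i : ℕ)
      · have : (⟨k, hk⟩ : Fin n) = i := Fin.ext hki
        rw [this, if_pos hki, Function.update_self]
      · have : (⟨k, hk⟩ : Fin n) ≠ i := fun e => hki (congrArg Fin.val e)
        rw [if_neg hki, Function.update_of_ne this]
    · have hne : k ≠ (i : ℕ) := by have := i.isLt; omega
      simp [hk, hne]
  unfold st step
  rw [hbit, hbit, hbit]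
  by_cases h4 : (i : ℕ) = 4
  · simp [h4]
  · by_cases h5 : (i : ℕ) = 5
    · simp [h5]
    · by_cases h6 : (i : ℕ) = 6
      · simp [h6]
      · rw [if_neg (fun e => h4 e.symm), if_neg (fun e => h5 e.symm), if_neg (fun e => h6 e.symm),
          if_neg h4, if_neg h5, if_neg h6]

lemma eq_flip {n : ℕ} {v w : Fin n → Bool} {i : Fin n} (h1 : v i ≠ w i)
    (h2 : ∀ j, j ≠ i → v j = w j) : w = flip v i := by
  funext j
  unfold flip
  by_cases hj : j = i
  · subst hj
    rw [Function.update_self]
    revert h1
    cases v j <;> cases w j <;> simp
  · rw [Function.update_of_ne hj, h2 j hj]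

lemma walk_dirs {n : ℕ} (r : ℕ) {v w : Fin n → Bool} (p : (Q n).Walk v w) :
    ∃ l : List (Fin n), l.length = p.length ∧
      p.edges.map (colN r) = cs r (st v) (l.map Fin.val) ∧ w = l.foldl flip v := by
  induction p with
  | nil => exact ⟨[], rfl, rfl, rfl⟩
  | @cons u v w hadj q ih =>
    obtain ⟨l, hl1, hl2, hl3⟩ := ih
    have hadj' := hadj
    obtain ⟨i, h1, h2⟩ := hadj'
    have hv := eq_flip h1 h2
    refine ⟨i :: l, ?_, ?_, ?_⟩
    · simp [hl1]
    · rw [SimpleGraph.Walk.edges_cons, List.map_cons, List.map_cons, hl2]
      simp only [cs]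
      rw [colN_adj h1 h2, hv, st_flip]
    · rw [List.foldl_cons, ← hv]
      exact hl3

lemma foldl_flip_notMem {n : ℕ} (i : Fin n) : ∀ (l : List (Fin n)) (v : Fin n → Bool), i ∉ l →
    (l.foldl flip v) i = v i := by
  intro l
  induction l with
  | nil => intro v _; rfl
  | cons j l ih =>
    intro v h
    rw [List.foldl_cons, ih _ (fun hh => h (List.mem_cons_of_mem _ hh))]
    unfold flip
    exact Function.update_of_ne (fun e => h (by simp [e])) _ _

lemma foldl_flip_nodup {n : ℕ} (i : Fin n) : ∀ (l : List (Fin n)) (v : Fin n → Bool), l.Nodup →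
    i ∈ l → (l.foldl flip v) i = !(v i) := by
  intro l
  induction l with
  | nil => intro v _ h; simp at h
  | cons j l ih =>
    intro v hnd h
    rw [List.nodup_cons] at hnd
    rw [List.foldl_cons]
    by_cases hij : i = j
    · subst hij
      rw [foldl_flip_notMem i l _ hnd.1]
      unfold flip
      rw [Function.update_self]
    · have him : i ∈ l := by
        rcases List.mem_cons.mp h with h | h
        · exact absurd h hij
        · exact h
      rw [ih _ hnd.2 him]
      unfold flip
      rw [Function.update_of_ne hij]

lemma exists_walk {n : ℕ} : ∀ (l : List (Fin n)) (v : Fin n → Bool),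
    ∃ p : (Q n).Walk v (l.foldl flip v), p.length = l.length := by
  intro l
  induction l with
  | nil => intro v; exact ⟨SimpleGraph.Walk.nil, rfl⟩
  | cons i l ih =>
    intro v
    obtain ⟨p, hp⟩ := ih (flip v i)
    have hadj : (Q n).Adj v (flip v i) := by
      refine ⟨i, ?_, ?_⟩
      · unfold flip
        rw [Function.update_self]
        cases v i <;> simp
      · intro j hj
        unfold flip
        rw [Function.update_of_ne hj]
    exact ⟨SimpleGraph.Walk.cons hadj p, by simp [hp]⟩

lemma dist_antipode {n : ℕ} (v : Fin n → Bool) : (Q n).dist v (antipode v) ≤ n := by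
  obtain ⟨p, hp⟩ := exists_walk (List.finRange n) v
  have hend : (List.finRange n).foldl flip v = antipode v := by
    funext i
    exact foldl_flip_nodup i _ v (List.nodup_finRange n) (List.mem_finRange i)
  have h1 := SimpleGraph.dist_le p
  rw [hp, List.length_finRange, hend] at h1
  exact h1

/-- **Negative answer.**  For all `r ≥ 3` and `n ≥ r + 4` there is an `r`-colouring of the edges of
the hypercube `Q_n` such that every geodesic path between antipodal vertices has at least `r`
colour changes. -/
theorem result (r n : ℕ) (hr : 3 ≤ r) (hn : r + 4 ≤ n) :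
    ∃ c : Sym2 (Fin n → Bool) → Fin r,
      ∀ (v : Fin n → Bool) (p : (Q n).Walk v (antipode v)),
        p.length = (Q n).dist v (antipode v) → r ≤ changes (p.edges.map c) := by
  have hr0 : 0 < r := by omega
  refine ⟨fun e => ⟨colN r e % r, Nat.mod_lt _ hr0⟩, ?_⟩
  intro v p hp
  obtain ⟨l, hl1, hl2, hl3⟩ := walk_dirs r p
  have hall : ∀ i : Fin n, i ∈ l := by
    intro i
    by_contra h
    have h1 := foldl_flip_notMem i l v h
    rw [← hl3] at h1
    unfold antipode at h1
    cases hv : v i <;> simp [hv] at h1
  have hlen : l.length ≤ n := by
    rw [hl1, hp]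
    exact dist_antipode v
  have hperm : (l.map Fin.val).Perm (List.range n) := by
    have h1 : l.toFinset = Finset.univ := by
      ext i
      simp [hall i]
    have h2 : l.toFinset.card = n := by rw [h1, Finset.card_univ, Fintype.card_fin]
    have h3 : l.Nodup := by
      rw [← List.dedup_eq_self]
      have h4 : l.dedup.length = l.length := by
        have h5 : l.toFinset.card = l.dedup.length := List.card_toFinset l
        have h6 := (List.dedup_sublist l).length_le
        omega
      exact (List.dedup_sublist l).eq_of_length h4
    have h4 : l.Perm (List.finRange n) := by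
      rw [List.perm_ext_iff_of_nodup h3 (List.nodup_finRange n)]
      intro i
      simp [hall i]
    have h5 := h4.map Fin.val
    rwa [List.map_coe_finRange_eq_range] at h5
  have hcore := core_n r n hr hn (st v) (l.map Fin.val) hperm
  have hlt : ∀ x ∈ cs r (st v) (l.map Fin.val), x < r := by
    have h0 : ∀ (l : List ℕ) (s : St), ∀ x ∈ cs r s l, x < r := by
      intro l
      induction l with
      | nil => intro s x hx; simp [cs] at hx
      | cons i l ih =>
        intro s x hx
        simp only [cs, List.mem_cons] at hx
        rcases hx with rfl | hx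
        · unfold col
          split_ifs with h1 h2
          · have := base_lt s i h1
            omega
          · omega
          · omega
        · exact ih _ x hx
    exact h0 _ _
  have hmap : (p.edges.map (fun e => (⟨colN r e % r, Nat.mod_lt _ hr0⟩ : Fin r))).map Fin.val
      = cs r (st v) (l.map Fin.val) := by
    rw [List.map_map]
    have h1 : p.edges.map (Fin.val ∘ fun e => (⟨colN r e % r, Nat.mod_lt _ hr0⟩ : Fin r))
        = (p.edges.map (colN r)).map (fun x => x % r) := by
      rw [List.map_map]
      rfl
    rw [h1, hl2]
    conv_rhs => rw [← List.map_id (cs r (st v) (l.map Fin.val))]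
    apply List.map_congr_left
    intro x hx
    exact Nat.mod_eq_of_lt (hlt x hx)
  rw [← hmap] at hcore
  exact hcore.trans (changes_map_le _ _)

end Pool.Agent.Results.MP_49ab16_co.Geodesics
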